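import Pool.Agent.L0h18.LZ.Defs

set_option autoImplicit false

/-!
# LZ, module FIN: finitely many vertices up to integral isometries (helper31)
-/

open Pool.Agent.N165.KM (IntL)
open Pool.Agent.L0h18.LZ
open Matrix

namespace Pool.Agent.L0h31.LZ.FIN

variable {ρ : ℕ}

/-- the real matrix of an integer matrix -/
abbrev rl (W : Matrix (Fin ρ) (Fin ρ) ℤ) : Matrix (Fin ρ) (Fin ρ) ℝ := W.map (Int.cast : ℤ → ℝ)

theorem rl_mul (A B : Matrix (Fin ρ) (Fin ρ) ℤ) : rl (A * B) = rl A * rl B :=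
  Matrix.map_mul (f := Int.castRingHom ℝ)

theorem rl_one : rl (1 : Matrix (Fin ρ) (Fin ρ) ℤ) = 1 :=
  Matrix.map_one _ (Int.cast_zero) (Int.cast_one)

theorem rl_det (A : Matrix (Fin ρ) (Fin ρ) ℤ) : (rl A).det = (A.det : ℝ) :=
  (RingHom.map_det (Int.castRingHom ℝ) A).symm

theorem bil_eq (B : Matrix (Fin ρ) (Fin ρ) ℤ) (x y : Fin ρ → ℝ) :
    bil B x y = x ⬝ᵥ (rl B *ᵥ y) := by
  unfold bil
  simp only [dotProduct, mulVec, Finset.mul_sum, Matrix.map_apply]
  exact Finset.sum_congr rfl fun i _ => Finset.sum_congr rfl fun j _ => by ring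

theorem bil_comm {B : Matrix (Fin ρ) (Fin ρ) ℤ} {h : Fin ρ → ℝ} (hL : Lorentz B h)
    (x y : Fin ρ → ℝ) : bil B x y = bil B y x := by
  unfold bil
  rw [Finset.sum_comm]
  exact Finset.sum_congr rfl fun i _ => Finset.sum_congr rfl fun j _ => by
    rw [hL.symm j i]; ring

theorem bil_smul_left (B : Matrix (Fin ρ) (Fin ρ) ℤ) (t : ℝ) (x y : Fin ρ → ℝ) :
    bil B (t • x) y = t * bil B x y := by
  rw [bil_eq, bil_eq, smul_dotProduct, smul_eq_mul]

theorem bil_smul_right (B : Matrix (Fin ρ) (Fin ρ) ℤ) (t : ℝ) (x y : Fin ρ → ℝ) :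
    bil B x (t • y) = t * bil B x y := by
  rw [bil_eq, bil_eq, mulVec_smul, dotProduct_smul, smul_eq_mul]

theorem bil_sub_left (B : Matrix (Fin ρ) (Fin ρ) ℤ) (x x' y : Fin ρ → ℝ) :
    bil B (x - x') y = bil B x y - bil B x' y := by
  rw [bil_eq, bil_eq, bil_eq, sub_dotProduct]

theorem bil_neg_left (B : Matrix (Fin ρ) (Fin ρ) ℤ) (x y : Fin ρ → ℝ) :
    bil B (-x) y = - bil B x y := by
  rw [bil_eq, bil_eq, neg_dotProduct]

theorem bil_neg_neg (B : Matrix (Fin ρ) (Fin ρ) ℤ) (x : Fin ρ → ℝ) :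
    bil B (-x) (-x) = bil B x x := by
  rw [bil_eq, bil_eq, neg_dotProduct, mulVec_neg, dotProduct_neg, neg_neg]

/-- row `i` as a real vector -/
def row (M : Matrix (Fin ρ) (Fin ρ) ℤ) (i : Fin ρ) : Fin ρ → ℝ := fun j => (M i j : ℝ)

theorem exists_rows {B : Matrix (Fin ρ) (Fin ρ) ℤ} {h u : Fin ρ → ℝ} (hu : Vtx B h u) :
    ∃ M : Matrix (Fin ρ) (Fin ρ) ℤ, M.det ≠ 0 ∧ ∀ i, row M i ∈ Pts B h ∧ bil B u (row M i) = 1 := by
  classical
  obtain ⟨f, hf, -, hli⟩ := Submodule.exists_fun_fin_finrank_span_eq ℝ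
    {v | v ∈ Pts B h ∧ bil B u v = 1}
  have e : Module.finrank ℝ (Submodule.span ℝ {v | v ∈ Pts B h ∧ bil B u v = 1}) = ρ := by
    rw [hu.span, finrank_top, Module.finrank_fin_fun]
  set g : Fin ρ → (Fin ρ → ℝ) := fun i => f (Fin.cast e.symm i) with hg
  have hgl : LinearIndependent ℝ g := hli.comp _ (Fin.cast_injective _)
  have hgm : ∀ i, g i ∈ Pts B h ∧ bil B u (g i) = 1 := fun i => hf _
  have hint : ∀ i j, ∃ m : ℤ, g i j = m := fun i j => (hgm i).1.1 j
  choose m hm using hint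
  have hrow : ∀ i, row (Matrix.of m) i = g i := fun i => funext fun j => (hm i j).symm
  refine ⟨Matrix.of m, ?_, fun i => ?_⟩
  · intro h0
    have h1 : rl (Matrix.of m) = Matrix.of g := by
      ext i j
      exact (hm i j).symm
    have h2 : IsUnit (rl (Matrix.of m)) := by
      rw [← Matrix.linearIndependent_rows_iff_isUnit]
      have : (rl (Matrix.of m)).row = g := by
        rw [h1]; rfl
      rw [this]
      exact hgl
    have h3 := (Matrix.isUnit_iff_isUnit_det _).1 h2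
    rw [rl_det, h0] at h3
    simp at h3
  · rw [hrow]
    exact hgm i

theorem cancel_left {M X Y : Matrix (Fin ρ) (Fin ρ) ℤ} (hM : M.det ≠ 0) (h : M * X = M * Y) :
    X = Y := by
  have h1 : M.det • X = M.det • Y := by
    have := congrArg (fun Z => M.adjugate * Z) h
    simpa only [← Matrix.mul_assoc, Matrix.adjugate_mul, Matrix.smul_mul, Matrix.one_mul] using this
  ext i j
  have h2 := congrFun (congrFun h1 i) j
  simp only [Matrix.smul_apply, smul_eq_mul] at h2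
  exact mul_left_cancel₀ hM h2

theorem cancel_right {M X Y : Matrix (Fin ρ) (Fin ρ) ℤ} (hM : M.det ≠ 0)
    (h : X * Mᵀ = Y * Mᵀ) : X = Y := by
  have h1 : M * Xᵀ = M * Yᵀ := by
    have := congrArg Matrix.transpose h
    simpa only [Matrix.transpose_mul, Matrix.transpose_transpose] using this
  exact Matrix.transpose_injective (cancel_left hM h1)

theorem exists_quot {M M' : Matrix (Fin ρ) (Fin ρ) ℤ} (hdet : M'.det = M.det)
    (hadj : ∀ i j, M.adjugate i j % M.det = M'.adjugate i j % M.det) :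
    ∃ W : Matrix (Fin ρ) (Fin ρ) ℤ, M.adjugate * M' = M.det • W := by
  have h1 : ∀ i j, ∃ w : ℤ, (M.adjugate * M') i j = M.det * w := by
    intro i j
    have h2 : (M'.adjugate * M') i j = M.det * (1 : Matrix (Fin ρ) (Fin ρ) ℤ) i j := by
      rw [Matrix.adjugate_mul, hdet, Matrix.smul_apply, smul_eq_mul]
    have h3 : M.det ∣ (M.adjugate * M') i j - (M'.adjugate * M') i j := by
      rw [Matrix.mul_apply, Matrix.mul_apply, ← Finset.sum_sub_distrib]
      refine Finset.dvd_sum fun k _ => ?_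
      rw [← sub_mul]
      refine Dvd.dvd.mul_right ?_ _
      exact (Int.ModEq.dvd (hadj i k).symm)
    obtain ⟨c, hc⟩ := h3
    refine ⟨c + (1 : Matrix (Fin ρ) (Fin ρ) ℤ) i j, ?_⟩
    rw [mul_add, ← hc, ← h2]
    ring
  choose w hw using h1
  refine ⟨Matrix.of w, ?_⟩
  ext i j
  rw [hw, Matrix.smul_apply, smul_eq_mul, Matrix.of_apply]

theorem vecMul_mem {W : Matrix (Fin ρ) (Fin ρ) ℤ} {x : Fin ρ → ℝ} (hx : x ∈ IntL ρ) :
    x ᵥ* rl W ∈ IntL ρ := by
  choose m hm using hx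
  intro j
  refine ⟨∑ i, m i * W i j, ?_⟩
  push_cast
  simp only [vecMul, dotProduct, Matrix.map_apply]
  exact Finset.sum_congr rfl fun i _ => by rw [hm]

theorem gram (B M : Matrix (Fin ρ) (Fin ρ) ℤ) (i j : Fin ρ) :
    (((M * B * Mᵀ) i j : ℤ) : ℝ) = bil B (row M i) (row M j) := by
  rw [bil_eq]
  have h1 : (((M * B * Mᵀ) i j : ℤ) : ℝ) = (rl (M * B * Mᵀ)) i j := rfl
  rw [h1, rl_mul, rl_mul, Matrix.mul_assoc, Matrix.mul_apply]
  rfl

theorem exists_iso {B : Matrix (Fin ρ) (Fin ρ) ℤ} {h : Fin ρ → ℝ} (hL : Lorentz B h)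
    (hpos : ∀ x ∈ pcone B h, ∀ y ∈ ncone B h, y ≠ 0 → 0 < bil B x y)
    (hnd : ∀ x, (∀ y, bil B x y = 0) → x = 0)
    {u u' : Fin ρ → ℝ} (hu : u ∈ pcone B h) (hu' : u' ∈ pcone B h)
    {M M' : Matrix (Fin ρ) (Fin ρ) ℤ} (hM : M.det ≠ 0)
    (hr : ∀ i, bil B u (row M i) = 1) (hr' : ∀ i, bil B u' (row M' i) = 1)
    (hdet : M'.det = M.det) (hG : M * B * Mᵀ = M' * B * M'ᵀ)
    (hadj : ∀ i j, M.adjugate i j % M.det = M'.adjugate i j % M.det) :
    ∃ T ∈ IsoZ B h, T u = u' := by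
  obtain ⟨W, hW⟩ := exists_quot hdet hadj
  obtain ⟨W', hW'⟩ := exists_quot (M := M') (M' := M) hdet.symm
    (fun i j => by rw [hdet]; exact (hadj i j).symm)
  have hM' : M'.det ≠ 0 := by rw [hdet]; exact hM
  have hMW : M * W = M' := by
    have h1 : M.det • (M * W) = M.det • M' := by
      rw [← Matrix.mul_smul, ← hW, ← Matrix.mul_assoc, Matrix.mul_adjugate, Matrix.smul_mul,
        Matrix.one_mul]
    ext i j
    have h2 := congrFun (congrFun h1 i) j
    simp only [Matrix.smul_apply, smul_eq_mul] at h2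
    exact mul_left_cancel₀ hM h2
  have hMW' : M' * W' = M := by
    have h1 : M'.det • (M' * W') = M'.det • M := by
      rw [← Matrix.mul_smul, ← hW', ← Matrix.mul_assoc, Matrix.mul_adjugate, Matrix.smul_mul,
        Matrix.one_mul]
    ext i j
    have h2 := congrFun (congrFun h1 i) j
    simp only [Matrix.smul_apply, smul_eq_mul] at h2
    exact mul_left_cancel₀ hM' h2
  have hWW' : W * W' = 1 := by
    refine cancel_left hM ?_
    rw [← Matrix.mul_assoc, hMW, hMW', Matrix.mul_one]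
  have hW'W : W' * W = 1 := mul_eq_one_comm.1 hWW'
  have hWB : W * B * Wᵀ = B := by
    refine cancel_right hM (cancel_left hM ?_)
    calc M * (W * B * Wᵀ * Mᵀ) = (M * W) * B * (M * W)ᵀ := by
          rw [Matrix.transpose_mul]; simp only [Matrix.mul_assoc]
      _ = M' * B * M'ᵀ := by rw [hMW]
      _ = M * (B * Mᵀ) := by rw [← hG, Matrix.mul_assoc]
  have hr1 : rl W * rl W' = 1 := by rw [← rl_mul, hWW', rl_one]
  have hr2 : rl W' * rl W = 1 := by rw [← rl_mul, hW'W, rl_one]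
  have hrB : rl W * (rl B * (rl W)ᵀ) = rl B := by
    have h1 : rl (W * B * Wᵀ) = rl W * rl B * (rl W)ᵀ := by
      rw [rl_mul, rl_mul]
      rfl
    rw [← Matrix.mul_assoc, ← h1, hWB]
  let T : (Fin ρ → ℝ) ≃ₗ[ℝ] (Fin ρ → ℝ) :=
    LinearEquiv.ofLinearMap (Matrix.toLinearMapRight' (rl W)) (Matrix.toLinearMapRight' (rl W'))
      (by
        ext1 i
        refine LinearMap.ext fun x => ?_
        simp only [LinearMap.comp_apply, Matrix.toLinearMapRight'_apply, Matrix.vecMul_vecMul, hr2,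
          Matrix.vecMul_one, LinearMap.id_apply])
      (by
        ext1 i
        refine LinearMap.ext fun x => ?_
        simp only [LinearMap.comp_apply, Matrix.toLinearMapRight'_apply, Matrix.vecMul_vecMul, hr1,
          Matrix.vecMul_one, LinearMap.id_apply])
  have hT : ∀ x, T x = x ᵥ* rl W := fun x => rfl
  have hTs : ∀ x, T.symm x = x ᵥ* rl W' := fun x => rfl
  have hiso : ∀ x y, bil B (T x) (T y) = bil B x y := by
    intro x y
    rw [bil_eq, bil_eq, hT, hT, ← Matrix.mulVec_transpose (rl W) y, ← Matrix.dotProduct_mulVec,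
      Matrix.mulVec_mulVec, Matrix.mulVec_mulVec, Matrix.mul_assoc, hrB]
  have hTrow : ∀ i, T (row M i) = row M' i := by
    intro i
    rw [hT]
    funext j
    have h1 : (rl (M * W)) i j = (rl M') i j := by rw [hMW]
    rw [rl_mul, Matrix.mul_apply] at h1
    exact h1
  have hTu : T u = u' := by
    have h1 : rl M' *ᵥ (rl B *ᵥ (T u - u')) = 0 := by
      funext i
      have h2 : bil B (row M' i) (T u) = 1 := by
        rw [← hTrow, hiso, bil_comm hL]
        exact hr i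
      have h3 : bil B (row M' i) u' = 1 := by
        rw [bil_comm hL]
        exact hr' i
      rw [Matrix.mulVec_sub, Matrix.mulVec_sub, Pi.sub_apply]
      rw [bil_eq] at h2 h3
      have h4 : (rl M' *ᵥ (rl B *ᵥ T u)) i = 1 := h2
      have h5 : (rl M' *ᵥ (rl B *ᵥ u')) i = 1 := h3
      rw [h4, h5, sub_self]
      rfl
    have h6 : (rl M').det ≠ 0 := by
      rw [rl_det]
      exact_mod_cast hM'
    have h7 := Matrix.eq_zero_of_mulVec_eq_zero h6 h1
    have h8 : T u - u' = 0 := by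
      refine hnd _ fun y => ?_
      rw [bil_comm hL, bil_eq, h7, dotProduct_zero]
    exact sub_eq_zero.1 h8
  refine ⟨T, ⟨fun x hx => ?_, fun x hx => ?_, hiso, ?_⟩, hTu⟩
  · rw [hT]
    exact vecMul_mem hx
  · rw [hTs]
    exact vecMul_mem hx
  · have hTh : 0 < bil B (T h) (T h) := by
      rw [hiso]; exact hL.pos
    have hTh0 : T h ≠ 0 := by
      intro h0
      rw [h0, bil_eq, zero_dotProduct] at hTh
      exact lt_irrefl _ hTh
    have h0 : h ≠ 0 := by
      rintro rfl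
      exact hTh0 (map_zero T)
    have h1 : 0 < bil B (T h) u' := by
      rw [← hTu, hiso, bil_comm hL]
      exact hu.2
    rcases lt_trichotomy (bil B (T h) h) 0 with hlt | heq | hgt
    · exfalso
      have h2 : -T h ∈ pcone B h := ⟨by rw [bil_neg_neg]; exact hTh, by rw [bil_neg_left]; linarith⟩
      have h3 := hpos _ h2 u' ⟨hu'.1.le, hu'.2.le⟩ (by
        rintro rfl
        have := hu'.1
        rw [bil_eq, zero_dotProduct] at this
        exact lt_irrefl _ this)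
      rw [bil_neg_left] at h3
      linarith
    · exact absurd (hL.neg _ heq hTh0) (not_lt.2 hTh.le)
    · exact hgt

theorem finite_entries (K : ℤ) :
    {G : Matrix (Fin ρ) (Fin ρ) ℤ | ∀ i j, |G i j| ≤ K}.Finite := by
  have h1 : (Set.pi Set.univ fun _ : Fin ρ =>
      (Set.pi Set.univ fun _ : Fin ρ => Set.Icc (-K) K)).Finite :=
    Set.Finite.pi fun _ => Set.Finite.pi fun _ => Set.finite_Icc _ _
  refine h1.subset fun G hG i _ j _ => ?_
  exact ⟨(abs_le.1 (hG i j)).1, (abs_le.1 (hG i j)).2⟩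

/-- FIN -/
theorem fin : S_FIN := by
  classical
  intro hBAS hMINK ρ B h hL
  obtain ⟨R, hR0, hR⟩ := hMINK hBAS ρ B h hL
  obtain ⟨hpos, hnn, heq, hsd, hcone, hcl, hint, hadd, hnd, hb1, hb2, hpd, hpq, -, hinv, hmul⟩ :=
    hBAS ρ B h hL
  refine ⟨fun u hu => ?_, ?_⟩
  · obtain ⟨c, hc0, hc⟩ := hb1 u hu
    refine (Pool.Agent.N165.KM.finite_bdd (ρ := ρ) c⁻¹).subset ?_
    rintro v ⟨hv, hv1⟩
    refine ⟨hv.1, ?_⟩
    have h1 := hc v hv.2.2
    rw [hv1] at h1
    rw [← one_div, le_div_iff₀ hc0, mul_comm]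
    exact h1
  -- lower bound for `bil u u`
  have hlow : ∀ u, Vtx B h u → 1 ≤ R ^ 2 * bil B u u := by
    intro u hu
    set s := Real.sqrt (bil B u u) with hs
    have hs2 : s ^ 2 = bil B u u := Real.sq_sqrt hu.mem.1.le
    have hs0 : 0 < s := Real.sqrt_pos.2 hu.mem.1
    have hw : s⁻¹ • u ∈ pcone B h := by
      refine ⟨?_, ?_⟩
      · rw [bil_smul_left, bil_smul_right]
        have := hu.mem.1
        positivity
      · rw [bil_smul_left]
        have := hu.mem.2
        positivity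
    have hw1 : bil B (s⁻¹ • u) (s⁻¹ • u) = 1 := by
      rw [bil_smul_left, bil_smul_right, ← hs2]
      field_simp
    obtain ⟨v, hv, hvR⟩ := hR _ hw hw1
    have h1 := hu.ge v hv
    rw [bil_smul_left] at hvR
    have h2 : bil B u v ≤ R * s := by
      have h3 : s * (s⁻¹ * bil B u v) ≤ s * R := mul_le_mul_of_nonneg_left hvR hs0.le
      rw [← mul_assoc, mul_inv_cancel₀ hs0.ne', one_mul] at h3
      linarith
    have h4 : 1 ≤ R * s := h1.trans h2
    calc (1 : ℝ) = 1 * 1 := by ring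
      _ ≤ (R * s) * (R * s) := mul_le_mul h4 h4 zero_le_one (by positivity)
      _ = R ^ 2 * bil B u u := by rw [← hs2]; ring
  -- bound for the Gram entries
  obtain ⟨K, hK⟩ := exists_nat_ge (2 * R ^ 2)
  have hgram : ∀ u, Vtx B h u → ∀ v ∈ Pts B h, ∀ w ∈ Pts B h, bil B u v = 1 → bil B u w = 1 →
      |bil B v w| ≤ K := by
    intro u hu v hv w hw hv1 hw1
    set s := Real.sqrt (bil B u u) with hs
    have hs2 : s ^ 2 = bil B u u := Real.sq_sqrt hu.mem.1.le
    have hs0 : 0 < s := Real.sqrt_pos.2 hu.mem.1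
    have hw : s⁻¹ • u ∈ pcone B h := by
      refine ⟨?_, ?_⟩
      · rw [bil_smul_left, bil_smul_right]
        have := hu.mem.1
        positivity
      · rw [bil_smul_left]
        have := hu.mem.2
        positivity
    have hu1 : bil B (s⁻¹ • u) (s⁻¹ • u) = 1 := by
      rw [bil_smul_left, bil_smul_right, ← hs2]
      field_simp
    have h1 := hpq _ hw hu1 v hv.2.2 w (by assumption : w ∈ Pts B h).2.2
    rw [bil_smul_left, bil_smul_left, hv1, hw1] at h1
    have h2 := hlow u hu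
    rw [← hs2] at h2
    have h3 : 2 * (s⁻¹ * 1) * (s⁻¹ * 1) ≤ 2 * R ^ 2 := by
      have h4 : 2 * (s⁻¹ * 1) * (s⁻¹ * 1) = 2 * (1 / s ^ 2) := by field_simp
      rw [h4]
      have h5 : 1 / s ^ 2 ≤ R ^ 2 := by
        rw [div_le_iff₀ (by positivity)]
        exact h2
      linarith
    linarith
  -- the determinant of `B`
  have hBdet : B.det ≠ 0 := by
    intro h0
    have h1 : (rl B).det = 0 := by rw [rl_det, h0, Int.cast_zero]
    obtain ⟨x, hx0, hx⟩ := Matrix.exists_mulVec_eq_zero_iff.2 h1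
    exact hx0 (hnd x fun y => by rw [bil_comm hL, bil_eq, hx, dotProduct_zero])
  -- choose the rows
  have hch : ∀ u, ∃ M : Matrix (Fin ρ) (Fin ρ) ℤ, Vtx B h u → M.det ≠ 0 ∧
      ∀ i, row M i ∈ Pts B h ∧ bil B u (row M i) = 1 := by
    intro u
    by_cases hu : Vtx B h u
    · obtain ⟨M, hM⟩ := exists_rows hu
      exact ⟨M, fun _ => hM⟩
    · exact ⟨0, fun hu' => absurd hu' hu⟩
  choose M hM using hch
  -- the finite set of invariants
  have hfG := finite_entries (ρ := ρ) (K : ℤ)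
  obtain ⟨D, hD⟩ : ∃ D : ℤ, ∀ G : Matrix (Fin ρ) (Fin ρ) ℤ, (∀ i j, |G i j| ≤ (K : ℤ)) →
      |G.det| ≤ D := by
    obtain ⟨D, hD⟩ := (hfG.image fun G => |G.det|).bddAbove
    exact ⟨D, fun G hG => hD ⟨G, hG, rfl⟩⟩
  let F : (Fin ρ → ℝ) → Matrix (Fin ρ) (Fin ρ) ℤ × ℤ × Matrix (Fin ρ) (Fin ρ) ℤ := fun u =>
    (M u * B * (M u)ᵀ, (M u).det, Matrix.of fun i j => (M u).adjugate i j % (M u).det)
  have hGb : ∀ u, Vtx B h u → ∀ i j, |(M u * B * (M u)ᵀ) i j| ≤ (K : ℤ) := by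
    intro u hu i j
    have h1 := (hM u hu).2
    have h2 := hgram u hu _ (h1 i).1 _ (h1 j).1 (h1 i).2 (h1 j).2
    rw [← gram] at h2
    exact_mod_cast h2
  have hdb : ∀ u, Vtx B h u → |(M u).det| ≤ D := by
    intro u hu
    have h1 := hD _ (hGb u hu)
    rw [Matrix.det_mul, Matrix.det_mul, Matrix.det_transpose, abs_mul, abs_mul] at h1
    have h2 : 1 ≤ |B.det| := Int.one_le_abs hBdet
    have h3 : 1 ≤ |(M u).det| := Int.one_le_abs (hM u hu).1
    nlinarith [mul_le_mul h3 h2 zero_le_one (abs_nonneg (M u).det),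
      mul_nonneg (abs_nonneg (M u).det) (abs_nonneg B.det)]
  have hfin : (F '' {u | Vtx B h u}).Finite := by
    refine ((hfG.prod ((Set.finite_Icc (-D) D).prod (finite_entries (ρ := ρ) D)))).subset ?_
    rintro _ ⟨u, hu, rfl⟩
    have h3 := hdb u hu
    refine ⟨hGb u hu, ⟨(abs_le.1 h3).1, (abs_le.1 h3).2⟩, fun i j => ?_⟩
    have h0 : (M u).det ≠ 0 := (hM u hu).1
    show |(M u).adjugate i j % (M u).det| ≤ D
    rw [abs_of_nonneg (Int.emod_nonneg _ h0)]
    exact (Int.emod_lt_abs _ h0).le.trans h3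
  obtain ⟨U, hU, hbij⟩ := Set.exists_subset_bijOn {u | Vtx B h u} F
  refine ⟨U, hbij.finite_iff_finite.2 hfin, fun u hu => hU hu, fun u hu => ?_⟩
  obtain ⟨u₀, hu₀, he⟩ := hbij.surjOn (Set.mem_image_of_mem F hu)
  have hv₀ : Vtx B h u₀ := hU hu₀
  have e1 : M u₀ * B * (M u₀)ᵀ = M u * B * (M u)ᵀ := congrArg Prod.fst he
  have e2 : (M u₀).det = (M u).det := congrArg (fun z => z.2.1) he
  have e3 : (Matrix.of fun i j => (M u₀).adjugate i j % (M u₀).det) =
      (Matrix.of fun i j => (M u).adjugate i j % (M u).det) := congrArg (fun z => z.2.2) he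
  obtain ⟨T, hT, hTu⟩ := exists_iso hL hpos hnd hv₀.mem hu.mem (hM u₀ hv₀).1
    (fun i => ((hM u₀ hv₀).2 i).2) (fun i => ((hM u hu).2 i).2) e2.symm e1 (fun i j => by
      have := congrFun (congrFun e3 i) j
      simp only [Matrix.of_apply] at this
      rw [this, e2])
  exact ⟨T, hT, u₀, hu₀, hTu⟩

end Pool.Agent.L0h31.LZ.FIN
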